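import Pool.Agent.X27.Chr.AM
import Pool.Agent.X27.Chr.Add

/-!
# Index of the solvable radical and average character degree up to subpolynomial factors

Let `acd(G)` be the average degree of the irreducible characters of the finite group `G` and `sol(G)` its solvable
radical. Let `P` be a class of finite groups closed under direct squares and `α` a real number (`α = 4` in the question).
We show that `|G : sol(G)| ≤ acd(G)^α` holds on `P` if and only if for each `ε > 0` there is `C` such that
`|G : sol(G)| ≤ C |G|^ε acd(G)^α` on `P`.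
-/

set_option autoImplicit false

namespace Pool.Agent.Results.MP_76dc41_al.SubpolynomialError

open Pool.Agent.X27.Chr Pool.Agent.Helper884.IC

/-- The average degree of the irreducible complex characters of `G`. -/
noncomputable def acd (G : Type) [Group G] : ℝ :=
  (∑ᶠ chi : {chi : G → ℂ // IsIrrChar chi}, (chi.1 1).re) /
    (Nat.card {chi : G → ℂ // IsIrrChar chi} : ℝ)

/-- `R` is the solvable radical of `G`: the largest solvable normal subgroup. -/
structure IsRad {G : Type} [Group G] (R : Subgroup G) : Prop where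
  normal : R.Normal
  solv : Group.IsSolvable R
  max : ∀ N : Subgroup G, N.Normal → Group.IsSolvable N → N ≤ R

theorem rad_prod {G : Type} [Group G] {R : Subgroup G} (h : IsRad R) : IsRad (R.prod R) := by
  have h1 := h.normal
  have h2 := h.solv
  refine ⟨Subgroup.prod_normal R R, ?_, fun N hN hs => ?_⟩
  · exact Group.isSolvable_of_isSolvable_injective
      (f := (Subgroup.prodEquiv R R).toMonoidHom) (Subgroup.prodEquiv R R).injective
  · intro x hx
    rw [Subgroup.mem_prod]
    constructor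
    · refine h.max (N.map (MonoidHom.fst G G)) (hN.map _ Prod.fst_surjective) ?_ ⟨x, hx, rfl⟩
      exact Group.isSolvable_of_surjective ((MonoidHom.fst G G).subgroupMap_surjective N)
    · refine h.max (N.map (MonoidHom.snd G G)) (hN.map _ Prod.snd_surjective) ?_ ⟨x, hx, rfl⟩
      exact Group.isSolvable_of_surjective ((MonoidHom.snd G G).subgroupMap_surjective N)

/-- The irreducible characters of the direct square. -/
theorem exists_equiv (G : Type) [Group G] [Finite G] :
    ∃ e : ({chi : G → ℂ // IsIrrChar chi} × {chi : G → ℂ // IsIrrChar chi}) ≃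
      {phi : G × G → ℂ // IsIrrChar phi}, ∀ x, ((e x).1 1).re = (x.1.1 1).re * (x.2.1 1).re := by
  have : Fintype G := Fintype.ofFinite G
  let F : ({chi : G → ℂ // IsIrrChar chi} × {chi : G → ℂ // IsIrrChar chi}) →
      {phi : G × G → ℂ // IsIrrChar phi} := fun x => ⟨bx x.1.1 x.2.1, irr_bx x.1.2 x.2.2⟩
  have hinj : Function.Injective F := by
    rintro ⟨⟨a, ha⟩, ⟨b, hb⟩⟩ ⟨⟨a', ha'⟩, ⟨b', hb'⟩⟩ h
    have h2 : bx a b = bx a' b' := congrArg Subtype.val h
    obtain ⟨rfl, rfl⟩ := bx_inj ha ha' hb hb' h2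
    rfl
  have hsurj : Function.Surjective F := by
    rintro ⟨phi, hphi⟩
    obtain ⟨chi, psi, hc, hp, rfl⟩ := irr_prod_surj hphi
    exact ⟨⟨⟨chi, hc⟩, ⟨psi, hp⟩⟩, rfl⟩
  refine ⟨Equiv.ofBijective F ⟨hinj, hsurj⟩, fun x => ?_⟩
  change (x.1.1 1 * x.2.1 1).re = _
  rw [dg_cast x.1.2, dg_cast x.2.2, Complex.mul_re]
  simp

theorem acd_prod (G : Type) [Group G] [Finite G] : acd (G × G) = acd G ^ 2 := by
  have : Fintype G := Fintype.ofFinite G
  obtain ⟨e, he⟩ := exists_equiv G
  have : Fintype {chi : G → ℂ // IsIrrChar chi} := (irr_finite (G := G)).fintype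
  have : Fintype {phi : G × G → ℂ // IsIrrChar phi} := Fintype.ofEquiv _ e
  unfold acd
  rw [← Nat.card_congr e, Nat.card_prod, finsum_eq_sum_of_fintype, finsum_eq_sum_of_fintype,
    ← Equiv.sum_comp e, Fintype.sum_prod_type, div_pow, pow_two, pow_two]
  push_cast
  congr 1
  rw [Finset.sum_mul_sum]
  exact Finset.sum_congr rfl fun a _ => Finset.sum_congr rfl fun b _ => he (a, b)

theorem acd_pos (G : Type) [Group G] [Finite G] : 0 < acd G := by
  have : Fintype G := Fintype.ofFinite G
  have : Fintype {chi : G → ℂ // IsIrrChar chi} := (irr_finite (G := G)).fintype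
  have : Nonempty {chi : G → ℂ // IsIrrChar chi} := ⟨⟨fun _ => 1, irr_triv G⟩⟩
  unfold acd
  rw [finsum_eq_sum_of_fintype]
  refine div_pos (Finset.sum_pos (fun chi _ => ?_) Finset.univ_nonempty) (by exact_mod_cast Nat.card_pos)
  rw [dg_cast chi.2]
  exact_mod_cast dg_pos chi.2

/-- A finite group. -/
structure Gp where
  G : Type
  [grp : Group G]
  [fin : Finite G]

attribute [instance] Gp.grp Gp.fin

/-- The direct square. -/
def Gp.sq (x : Gp) : Gp := ⟨x.G × x.G⟩

theorem powers (P : Gp → Prop) (hP : ∀ x, P x → P x.sq) (x : Gp) (hx : P x) (R : Subgroup x.G)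
    (hR : IsRad R) (n : ℕ) : ∃ (y : Gp) (S : Subgroup y.G), P y ∧ IsRad S ∧
      Nat.card y.G = Nat.card x.G ^ 2 ^ n ∧ S.index = R.index ^ 2 ^ n ∧
      acd y.G = acd x.G ^ 2 ^ n := by
  induction n with
  | zero => exact ⟨x, R, hx, hR, by simp, by simp, by simp⟩
  | succ n ih =>
    obtain ⟨y, S, h1, hS, h2, h3, h4⟩ := ih
    refine ⟨y.sq, (S.prod S : Subgroup (y.G × y.G)), hP y h1, rad_prod hS, ?_, ?_, ?_⟩
    · change Nat.card (y.G × y.G) = _
      rw [Nat.card_prod, h2, ← pow_two, pow_succ 2 n, pow_mul]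
    · change (S.prod S).index = _
      rw [Subgroup.index_prod, h3, ← pow_two, pow_succ 2 n, pow_mul]
    · change acd (y.G × y.G) = _
      rw [acd_prod, h4, pow_succ 2 n, pow_mul]

/-- **The inequality up to factors `|G|^o(1)` implies the inequality.** -/
theorem result (α : ℝ) (P : Gp → Prop) (hP : ∀ x, P x → P x.sq) :
    (∀ x, P x → ∀ R : Subgroup x.G, IsRad R → (R.index : ℝ) ≤ acd x.G ^ α) ↔
      ∀ ε : ℝ, 0 < ε → ∃ C : ℝ, ∀ x, P x → ∀ R : Subgroup x.G, IsRad R →
        (R.index : ℝ) ≤ C * (Nat.card x.G : ℝ) ^ ε * acd x.G ^ α := by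
  constructor
  · intro h ε hε
    refine ⟨1, fun x hx R hR => ?_⟩
    have h2 : (1 : ℝ) ≤ (Nat.card x.G : ℝ) ^ ε :=
      Real.one_le_rpow (by exact_mod_cast Nat.card_pos) hε.le
    have h3 := h x hx R hR
    have h4 : (0 : ℝ) < acd x.G ^ α := Real.rpow_pos_of_pos (acd_pos _) _
    nlinarith
  · intro h x hx R hR
    have hg : (0 : ℝ) < (Nat.card x.G : ℝ) := by exact_mod_cast Nat.card_pos
    have ha : (0 : ℝ) < acd x.G := acd_pos _
    have key : ∀ ε : ℝ, 0 < ε → (R.index : ℝ) ≤ (Nat.card x.G : ℝ) ^ ε * acd x.G ^ α := by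
      intro ε hε
      obtain ⟨C, hC⟩ := h ε hε
      refine root_bound (C := C) (mul_pos (Real.rpow_pos_of_pos hg _)
        (Real.rpow_pos_of_pos ha _)) fun n => ?_
      obtain ⟨y, S, h1, hS, h2, h3, h4⟩ := powers P hP x hx R hR n
      have h5 := hC y h1 S hS
      rw [h2, h3, h4] at h5
      push_cast at h5
      have h6 : ∀ (t β : ℝ), 0 < t → (t ^ 2 ^ n) ^ β = (t ^ β) ^ 2 ^ n := by
        intro t β ht
        rw [← Real.rpow_natCast, ← Real.rpow_natCast, ← Real.rpow_mul ht.le,
          ← Real.rpow_mul ht.le, mul_comm]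
      rw [h6 _ _ hg, h6 _ _ ha] at h5
      rw [mul_pow, ← mul_assoc]
      exact h5
    have hlim : Filter.Tendsto (fun n : ℕ => (Nat.card x.G : ℝ) ^ (1 / ((n : ℝ) + 1)) *
        acd x.G ^ α) Filter.atTop (nhds ((Nat.card x.G : ℝ) ^ (0 : ℝ) * acd x.G ^ α)) := by
      refine Filter.Tendsto.mul_const _ ?_
      exact (Real.continuousAt_const_rpow hg.ne').tendsto.comp
        tendsto_one_div_add_atTop_nhds_zero_nat
    rw [Real.rpow_zero, one_mul] at hlim
    exact ge_of_tendsto' hlim fun n => key _ (by positivity)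

end Pool.Agent.Results.MP_76dc41_al.SubpolynomialError
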